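import Pool.Agent.TH117.GN.Wt
import Pool.Agent.R900.EX.Fermat
import Pool.Agent.R900.PT.Main

/-!
# The Tate conjecture for the higher Chow groups of varieties generated by products of Fermat
# varieties

Let `m` be prime to the prime `p`. We call the degree `m` good for `p` (`GoodDegree`) if

* all prime divisors of `m` lie in `{2, 3, 5}`, or all in `{2, 3, 7}`, or all in `{2, q}` for a prime
  `q` congruent to seven modulo eight, or `4` does not divide `m` and all lie in `{2, 3, 11}`, or all
  in `{2, 3, 13}`; here `p` is any prime that does not divide `m`; or
* `m = u v`, or `m = 2 u v` with odd `u v`, where `u`, `v` are powers of two different primes and `-1`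
  is a power of `p` modulo `u` and modulo `v`, but not necessarily modulo `m`; or
* `p` and the odd primes dividing `m` are squares modulo the (other) odd primes dividing `m`, with
  some conditions on orders (`Squares`); for example if `4` does not divide `m`, `p` has odd order
  modulo `m` and the odd primes dividing `m` are squares modulo each other.

`Homology Ω V` are data of motivic homology `M X n j = H_n^M(X, ℚ(j)) = CH_j(X, n - 2 j) ⊗ ℚ` (higher
Chow groups) and of `ℓ`-adic homology `E X n j = H_n(X, ℚ_ℓ(j))` of schemes `X : V` of finite type over
finite fields, with the Frobenius and the regulator. Let `𝒢` (`Generated`) be the smallest class of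
schemes that contains all products of Fermat varieties `x_0 ^ m + ... + x_(n+1) ^ m = 0`, of any
dimensions, of the same degree `m` that is good for the characteristic (`IsFermat`), that is closed
under direct summands of finite sums of twists of motives, and that contains all of a closed subscheme
`Z` of `X`, `X` and `X ∖ Z` if it contains two of them. For example, it contains the quotients of these
varieties by finite groups, the products of Fermat curves `x ^ m + y ^ m + z ^ m = 0` and of curves
dominated by them, the affine Fermat varieties and the complements of coordinate hyperplanes.

**Theorem.**

* For all `X` in `𝒢` and all `n`, `j` the regulator maps `CH_j(X, n - 2 j) ⊗ Ω` onto the Frobenius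
  invariants in `H_n(X, ℚ_ℓ(j)) ⊗ Ω`. For a smooth variety `X` of dimension `g`, projective or not, these
  are the maps `c_X^{i,c}` of the question for all `i = 2 g - n` and `c = g - j`.
* The same holds for the complement `U = X ∖ Z` of an **arbitrary** closed subscheme `Z` of dimension
  at most `d` of a scheme `X` in `𝒢`, for all `n` and all `j ≥ d` (for smooth `X`: for the groups
  `CH^c(U, m)` for all `m` and all `c` at most the codimension of `Z`).

Properties that are used for the products `X` of Fermat varieties. `IsCyc`: Poincaré duality, the formal
properties of correspondences, Deligne's theorem, the nilpotence of homologically trivial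
correspondences (Kimura; the motive of `X` is a direct summand of a sum of twists of motives of products
of curves by Shioda and Katsura), the operation of the Frobenius endomorphism on higher Chow groups
(Soulé) and the vanishing of the higher rational `K`-groups of a finite field (Quillen). `HasLines`: the
decomposition of the cohomology into lines labelled by multisets of residues modulo `m`, the theorem of
Stickelberger, and the algebraicity of lines whose label becomes, after raising the degree, composed of
labels of surfaces and of standard labels (Tate, Shioda, Katsura, Aoki). That the labels of all Tate
classes of good degrees are composed in this way was proved in the starting files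
(`MP_021685_ag.FermatEveryCharacteristic`, `MP_950c68_ag.FermatTwoPrimes`,
`MP_0d42ed_ag.FermatEvenOrders`). The passage from there to all degrees and to the class `𝒢`
(`tb_fermat`, in `Pool/Agent/R900/EX/Fermat.lean`) is due to Soulé, Geisser, Kahn and Jannsen.
-/

set_option autoImplicit false

namespace Pool.Agent.Results.MP_81b968_ag.FermatVarieties

open Pool.Agent.W495.FM Pool.Agent.R900.EX Pool.Agent.R900.PT Pool.Agent.TH117.GN

/-- Surjectivity of the regulators in all degrees for the class generated by the products of Fermat
varieties, and for complements of closed subschemes. -/
theorem result (Ω : Type) [Field Ω]
    [CharZero Ω] (V : Type) (T : Homology Ω V) (hT : IsHomology T) :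
    (∀ X : V, Generated T (IsFermat T) X → ∀ n j, IsSurjectiveAt T X n j) ∧
    ∀ (Z X U : V) (d : ℤ), IsTriple T Z X U → Generated T (IsFermat T) X →
      HasDimAtMost T Z d → ∀ n j, d ≤ j → IsSurjectiveAt T U n j :=
  ⟨fun _ hX n j => surj_of_tb (tb_fermat hT hX) n j,
    fun _ _ _ _ h hX hZ n _ hj e he => ((reg_opened hT h (tb_fermat hT hX) hZ hj n).1 e).1 he⟩

end Pool.Agent.Results.MP_81b968_ag.FermatVarieties
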